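import Pool.Agent.X157.CP

set_option autoImplicit false

/-! Graphs of `k`-fold pyramids, `k ≥ 3`, are dimensionally ambiguous: the direct sum (free sum) of
the basis and a simplex with `k` vertices has the same graph and one dimension less. -/

namespace Pool.Agent.Results.MP_1e46c9_co.IteratedPyramids

open Set Pool.Agent.X157.CP

/-- `IsPyr P k Q` : the set `Q` is a `k`-fold pyramid with basis `P` , i.e. it is obtained from `P` by
taking `k` times the pyramid with some apex outside of the affine span of the current set. -/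
inductive IsPyr {E : Type} [NormedAddCommGroup E] [InnerProductSpace ℝ E] (P : Set E) :
    ℕ → Set E → Prop
  | zero : IsPyr P 0 P
  | succ {k : ℕ} {Q : Set E} (a : E) (hQ : IsPyr P k Q) (ha : a ∉ affineSpan ℝ Q) :
      IsPyr P (k + 1) (convexHull ℝ (insert a Q))

/-- the family `g` extends the family `f` by `k` points adjacent to everything -/
def Good {ι E F : Type} [NormedAddCommGroup E] [NormedSpace ℝ E] [NormedAddCommGroup F]
    [NormedSpace ℝ F] (f : ι → E) {k : ℕ} (g : ι ⊕ Fin k → F) : Prop :=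
  Exp g ∧ (∀ i j, AdjF g (Sum.inl i) (Sum.inl j) ↔ AdjF f i j) ∧
    (∀ i j, AdjF g (Sum.inl i) (Sum.inr j)) ∧ (∀ i j, i ≠ j → AdjF g (Sum.inr i) (Sum.inr j))

lemma Good.famGraph_eq {ι E F F' : Type} [NormedAddCommGroup E] [NormedSpace ℝ E]
    [NormedAddCommGroup F] [NormedSpace ℝ F] [NormedAddCommGroup F'] [NormedSpace ℝ F']
    {f : ι → E} {k : ℕ} {g : ι ⊕ Fin k → F} {h : ι ⊕ Fin k → F'} (hg : Good f g) (hh : Good f h) :
    famGraph g = famGraph h := by
  ext x y
  show AdjF g x y ↔ AdjF h x y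
  obtain ⟨_, g1, g2, g3⟩ := hg
  obtain ⟨_, h1, h2, h3⟩ := hh
  rcases x with i | i <;> rcases y with j | j
  · rw [g1, h1]
  · exact ⟨fun _ => h2 i j, fun _ => g2 i j⟩
  · exact ⟨fun _ => (h2 j i).symm, fun _ => (g2 j i).symm⟩
  · constructor
    · intro hadj
      exact h3 i j (fun he => hadj.1 (by rw [he]))
    · intro hadj
      exact g3 i j (fun he => hadj.1 (by rw [he]))

section pyramid

variable {E : Type} [NormedAddCommGroup E] [InnerProductSpace ℝ E] [FiniteDimensional ℝ E]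

/-- a functional which is constant on `Q` and larger at `a` -/
lemma exists_height {Q : Set E} {a : E} (hQ : Q.Nonempty) (ha : a ∉ affineSpan ℝ Q) :
    ∃ (h : StrongDual ℝ E) (c : ℝ), (∀ x ∈ Q, h x = c) ∧ h a = c + 1 := by
  obtain ⟨q, hq⟩ := hQ
  have hqs : q ∈ affineSpan ℝ Q := subset_affineSpan ℝ Q hq
  have h1 : a - q ∉ (affineSpan ℝ Q).direction := by
    intro hmem
    apply ha
    have := AffineSubspace.vadd_mem_of_mem_direction hmem hqs
    simpa using this
  obtain ⟨φ, hφ1, hφ2⟩ := Submodule.exists_le_ker_of_notMem h1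
  let ψ : StrongDual ℝ E := LinearMap.toContinuousLinearMap ((φ (a - q))⁻¹ • φ)
  have hψ : ∀ x, ψ x = (φ (a - q))⁻¹ * φ x := fun x => rfl
  refine ⟨ψ, ψ q, ?_, ?_⟩
  · intro x hx
    have h2 : x - q ∈ (affineSpan ℝ Q).direction :=
      AffineSubspace.vsub_mem_direction (subset_affineSpan ℝ Q hx) hqs
    have h3 : φ (x - q) = 0 := hφ2 h2
    have h4 : φ x = φ q := by rw [map_sub] at h3; linarith
    rw [hψ, hψ, h4]
  · have h5 : ψ (a - q) = 1 := by
      rw [hψ]; exact inv_mul_cancel₀ hφ1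
    rw [map_sub] at h5
    linarith

/-- the points of the new family -/
def ext {ι : Type} {k : ℕ} (g : ι ⊕ Fin k → E) (a : E) : ι ⊕ Fin (k + 1) → E :=
  Sum.elim (fun i => g (Sum.inl i)) (Fin.cons a (fun j => g (Sum.inr j)))

/-- embedding of the old index set -/
def emb {ι : Type} {k : ℕ} : ι ⊕ Fin k → ι ⊕ Fin (k + 1) := Sum.map id Fin.succ

lemma ext_emb {ι : Type} {k : ℕ} (g : ι ⊕ Fin k → E) (a : E) (x : ι ⊕ Fin k) :
    ext g a (emb x) = g x := by
  rcases x with i | j
  · rfl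
  · show (Fin.cons a (fun j => g (Sum.inr j)) : Fin (k + 1) → E) (Fin.succ j) = _
    rw [Fin.cons_succ]

lemma ext_zero {ι : Type} {k : ℕ} (g : ι ⊕ Fin k → E) (a : E) :
    ext g a (Sum.inr 0) = a := rfl

lemma cases_emb {ι : Type} {k : ℕ} (x : ι ⊕ Fin (k + 1)) :
    x = Sum.inr 0 ∨ ∃ y : ι ⊕ Fin k, x = emb y := by
  rcases x with i | j
  · exact Or.inr ⟨Sum.inl i, rfl⟩
  · refine Fin.cases ?_ (fun j => ?_) j
    · exact Or.inl rfl
    · exact Or.inr ⟨Sum.inr j, rfl⟩

lemma emb_injective {ι : Type} {k : ℕ} : Function.Injective (emb : ι ⊕ Fin k → _) :=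
  Function.injective_id.sumMap (Fin.succ_injective k)

lemma emb_ne {ι : Type} {k : ℕ} (x : ι ⊕ Fin k) : emb x ≠ Sum.inr 0 := by
  rcases x with i | j
  · intro h; cases h
  · intro h
    exact Fin.succ_ne_zero j (Sum.inr.inj h)

lemma ext_exp {ι : Type} [Finite ι] {k : ℕ} {g : ι ⊕ Fin k → E} (hg : Exp g) {a : E}
    {h : StrongDual ℝ E} {c : ℝ} (h1 : ∀ x, h (g x) = c) (h2 : h a = c + 1) :
    Exp (ext g a) := by
  intro x
  rcases cases_emb x with rfl | ⟨y, rfl⟩
  · refine ⟨h, fun z hz => ?_⟩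
    rcases cases_emb z with rfl | ⟨w, rfl⟩
    · exact absurd rfl hz
    · rw [ext_emb, ext_zero, h1, h2]; linarith
  · obtain ⟨l, hl⟩ := hg y
    refine ⟨l - (l a - l (g y) + 1) • h, fun z hz => ?_⟩
    rcases cases_emb z with rfl | ⟨w, rfl⟩
    · rw [ext_emb, ext_zero]
      show l a - (l a - l (g y) + 1) * h a < l (g y) - (l a - l (g y) + 1) * h (g y)
      rw [h1, h2]
      linarith
    · rw [ext_emb, ext_emb]
      show l (g w) - (l a - l (g y) + 1) * h (g w) < l (g y) - (l a - l (g y) + 1) * h (g y)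
      rw [h1, h1]
      have := hl w (fun he => hz (by rw [he]))
      linarith

lemma ext_adj {ι : Type} {k : ℕ} {g : ι ⊕ Fin k → E} {a : E}
    {h : StrongDual ℝ E} {c : ℝ} (h1 : ∀ x, h (g x) = c) (h2 : h a = c + 1) (x y : ι ⊕ Fin k) :
    AdjF (ext g a) (emb x) (emb y) ↔ AdjF g x y := by
  constructor
  · rintro ⟨hne, l, hl1, hl2⟩
    refine ⟨fun he => hne (by rw [he]), l, ?_, ?_⟩
    · rw [ext_emb, ext_emb] at hl1; exact hl1
    · intro z hz1 hz2
      have := hl2 (emb z) (fun he => hz1 (emb_injective he)) (fun he => hz2 (emb_injective he))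
      rw [ext_emb, ext_emb] at this
      exact this
  · rintro ⟨hne, l, hl1, hl2⟩
    refine ⟨fun he => hne (emb_injective he), l - (l a - l (g x) + 1) • h, ?_, ?_⟩
    · rw [ext_emb, ext_emb]
      show l (g x) - (l a - l (g x) + 1) * h (g x) = l (g y) - (l a - l (g x) + 1) * h (g y)
      rw [h1, h1, hl1]
    · intro z hz1 hz2
      rcases cases_emb z with rfl | ⟨w, rfl⟩
      · rw [ext_emb, ext_zero]
        show l a - (l a - l (g x) + 1) * h a < l (g x) - (l a - l (g x) + 1) * h (g x)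
        rw [h1, h2]
        linarith
      · rw [ext_emb, ext_emb]
        show l (g w) - (l a - l (g x) + 1) * h (g w) < l (g x) - (l a - l (g x) + 1) * h (g x)
        rw [h1, h1]
        have := hl2 w (fun he => hz1 (by rw [he])) (fun he => hz2 (by rw [he]))
        linarith

lemma ext_adj_apex {ι : Type} {k : ℕ} {g : ι ⊕ Fin k → E} (hg : Exp g) {a : E}
    {h : StrongDual ℝ E} {c : ℝ} (h1 : ∀ x, h (g x) = c) (h2 : h a = c + 1) (y : ι ⊕ Fin k) :
    AdjF (ext g a) (emb y) (Sum.inr 0) := by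
  obtain ⟨l, hl⟩ := hg y
  refine ⟨emb_ne y, l - (l a - l (g y)) • h, ?_, ?_⟩
  · rw [ext_emb, ext_zero]
    show l (g y) - (l a - l (g y)) * h (g y) = l a - (l a - l (g y)) * h a
    rw [h1, h2]
    ring
  · intro z hz1 hz2
    rcases cases_emb z with rfl | ⟨w, rfl⟩
    · exact absurd rfl hz2
    · rw [ext_emb, ext_emb]
      show l (g w) - (l a - l (g y)) * h (g w) < l (g y) - (l a - l (g y)) * h (g y)
      rw [h1, h1]
      have := hl w (fun he => hz1 (by rw [he]))
      linarith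

lemma range_ext {ι : Type} {k : ℕ} (g : ι ⊕ Fin k → E) (a : E) :
    range (ext g a) = insert a (range g) := by
  apply Subset.antisymm
  · rintro _ ⟨x, rfl⟩
    rcases cases_emb x with rfl | ⟨y, rfl⟩
    · exact Or.inl rfl
    · rw [ext_emb]; exact Or.inr ⟨y, rfl⟩
  · rintro x (rfl | ⟨y, rfl⟩)
    · exact ⟨Sum.inr 0, rfl⟩
    · exact ⟨emb y, ext_emb g a y⟩

lemma hull_insert_hull (a : E) (S : Set E) :
    convexHull ℝ (insert a (convexHull ℝ S)) = convexHull ℝ (insert a S) := by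
  apply Subset.antisymm
  · apply convexHull_min _ (convex_convexHull ℝ _)
    rintro x (rfl | hx)
    · exact subset_convexHull ℝ _ (Or.inl rfl)
    · exact convexHull_mono (subset_insert _ _) hx
  · exact convexHull_mono (insert_subset_insert (subset_convexHull ℝ S))

lemma finrank_insert {Q : Set E} (hQ : Q.Nonempty) {a : E} (ha : a ∉ affineSpan ℝ Q) :
    Module.finrank ℝ (vectorSpan ℝ (convexHull ℝ (insert a Q))) =
      Module.finrank ℝ (vectorSpan ℝ Q) + 1 := by
  obtain ⟨q, hq⟩ := hQ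
  have h1 : vectorSpan ℝ (convexHull ℝ (insert a Q)) = vectorSpan ℝ (insert a Q) := by
    rw [← direction_affineSpan, affineSpan_convexHull, direction_affineSpan]
  rw [h1]
  have h2 : vectorSpan ℝ (insert a Q) = vectorSpan ℝ Q ⊔ Submodule.span ℝ {a - q} := by
    apply le_antisymm
    · rw [vectorSpan_eq_span_vsub_set_right ℝ (show q ∈ insert a Q from Or.inr hq),
        Submodule.span_le]
      rintro _ ⟨x, (rfl | hx), rfl⟩
      · exact Submodule.mem_sup_right (Submodule.mem_span_singleton_self _)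
      · exact Submodule.mem_sup_left (vsub_mem_vectorSpan ℝ hx hq)
    · apply sup_le
      · exact vectorSpan_mono ℝ (subset_insert _ _)
      · rw [Submodule.span_singleton_le_iff_mem]
        exact vsub_mem_vectorSpan ℝ (Or.inl rfl) (Or.inr hq)
  have h3 : a - q ∉ vectorSpan ℝ Q := by
    intro hmem
    apply ha
    rw [← direction_affineSpan] at hmem
    have := AffineSubspace.vadd_mem_of_mem_direction hmem (subset_affineSpan ℝ Q hq)
    simpa using this
  have hne : a - q ≠ 0 := fun h => h3 (by rw [h]; exact zero_mem _)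
  have h4 : vectorSpan ℝ Q ⊓ Submodule.span ℝ {a - q} = ⊥ := by
    rw [← disjoint_iff, Submodule.disjoint_span_singleton' hne]
    exact h3
  have h5 := Submodule.finrank_sup_add_finrank_inf_eq (vectorSpan ℝ Q) (Submodule.span ℝ {a - q})
  rw [h4, finrank_bot, finrank_span_singleton hne] at h5
  rw [h2]
  omega

/-- the graph and the dimension of an iterated pyramid -/
lemma IsPyr.good {n : ℕ} {P : Set E} (hP : IsPolytope n P) {k : ℕ} {Q : Set E} (hQ : IsPyr P k Q) :
    IsPolytope (n + k) Q ∧ ∃ g : P.extremePoints ℝ ⊕ Fin k → E,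
      Q = convexHull ℝ (range g) ∧ Good (fun v : P.extremePoints ℝ => (v : E)) g := by
  obtain ⟨hfin, hexp, hPr⟩ := hP.exists_family
  induction hQ with
  | zero =>
    refine ⟨hP, Sum.elim (fun v => (v : E)) (fun j => Fin.elim0 j), ?_, ?_, ?_, ?_, ?_⟩
    · have : range (Sum.elim (fun v : P.extremePoints ℝ => (v : E)) (fun j : Fin 0 => Fin.elim0 j)) =
          range (fun v : P.extremePoints ℝ => (v : E)) := by
        apply Subset.antisymm
        · rintro _ ⟨i | j, rfl⟩
          · exact ⟨i, rfl⟩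
          · exact Fin.elim0 j
        · rintro _ ⟨i, rfl⟩
          exact ⟨Sum.inl i, rfl⟩
      rw [this]
      exact hPr
    · rintro (i | j)
      · obtain ⟨l, hl⟩ := hexp i
        refine ⟨l, ?_⟩
        rintro (i' | j') hne
        · exact hl i' (fun he => hne (by rw [he]))
        · exact Fin.elim0 j'
      · exact Fin.elim0 j
    · intro i j
      constructor
      · rintro ⟨h1, l, h2, h3⟩
        exact ⟨fun he => h1 (by rw [he]), l, h2, fun k' hk1 hk2 =>
          h3 (Sum.inl k') (fun he => hk1 (Sum.inl.inj he)) (fun he => hk2 (Sum.inl.inj he))⟩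
      · rintro ⟨h1, l, h2, h3⟩
        refine ⟨fun he => h1 (Sum.inl.inj he), l, h2, ?_⟩
        rintro (k' | k') hk1 hk2
        · exact h3 k' (fun he => hk1 (by rw [he])) (fun he => hk2 (by rw [he]))
        · exact Fin.elim0 k'
    · intro _ j; exact Fin.elim0 j
    · intro i; exact Fin.elim0 i
  | @succ k Q a hQ ha ih =>
    obtain ⟨⟨hne, ⟨S, hS, hQS⟩, hdim⟩, g, hg, hgood⟩ := ih
    obtain ⟨h, c, h1, h2⟩ := exists_height hne ha
    have h1' : ∀ x, h (g x) = c := by
      intro x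
      apply h1
      rw [hg]
      exact subset_convexHull ℝ _ ⟨x, rfl⟩
    obtain ⟨g0, g1, g2, g3⟩ := hgood
    refine ⟨⟨⟨a, subset_convexHull ℝ _ (Or.inl rfl)⟩, ⟨insert a S, hS.insert a, ?_⟩, ?_⟩,
      ext g a, ?_, ext_exp g0 h1' h2, ?_, ?_, ?_⟩
    · rw [hQS, hull_insert_hull]
    · rw [finrank_insert hne ha, hdim]; ring
    · rw [range_ext, hg, hull_insert_hull]
    · intro i j
      rw [← g1]
      exact ext_adj h1' h2 (Sum.inl i) (Sum.inl j)
    · intro i j
      rcases cases_emb (Sum.inr j : P.extremePoints ℝ ⊕ Fin (k + 1)) with hj | ⟨y, hy⟩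
      · rw [hj]
        exact ext_adj_apex g0 h1' h2 (Sum.inl i)
      · rcases y with y | y
        · cases hy
        · rw [hy]
          exact (ext_adj h1' h2 (Sum.inl i) (Sum.inr y)).mpr (g2 i y)
    · intro i j hij
      rcases cases_emb (Sum.inr i : P.extremePoints ℝ ⊕ Fin (k + 1)) with hi | ⟨x, hx⟩
      · rcases cases_emb (Sum.inr j : P.extremePoints ℝ ⊕ Fin (k + 1)) with hj | ⟨y, hy⟩
        · exact absurd (Sum.inr.inj (hi.trans hj.symm)) hij
        · rw [hi, hy]
          exact (ext_adj_apex g0 h1' h2 y).symm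
      · rcases cases_emb (Sum.inr j : P.extremePoints ℝ ⊕ Fin (k + 1)) with hj | ⟨y, hy⟩
        · rw [hj, hx]
          exact ext_adj_apex g0 h1' h2 x
        · rcases x with x | x
          · cases hx
          · rcases y with y | y
            · cases hy
            · rw [hx, hy]
              apply (ext_adj h1' h2 (Sum.inr x) (Sum.inr y)).mpr
              apply g3
              rintro rfl
              exact hij (Sum.inr.inj (hx.trans hy.symm))

end pyramid

section freeSum

variable {E : Type} [NormedAddCommGroup E] [InnerProductSpace ℝ E] [FiniteDimensional ℝ E]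

/-- the vertices of the simplex with `k` vertices, centred at the origin -/
noncomputable def tv {k : ℕ} (j : Fin k) : Fin k → ℝ := Pi.single j 1 - fun _ => (k : ℝ)⁻¹

/-- the vertices of the free sum -/
noncomputable def fs {ι : Type} (f : ι → E) (x0 : E) (k : ℕ) : ι ⊕ Fin k → E × (Fin k → ℝ) :=
  Sum.elim (fun i => (f i - x0, 0)) (fun j => (0, tv j))

/-- the functional `(x, y) ↦ l x + m y` -/
noncomputable def cf {k : ℕ} (l : StrongDual ℝ E) (m : StrongDual ℝ (Fin k → ℝ)) :
    StrongDual ℝ (E × (Fin k → ℝ)) :=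
  l.comp (ContinuousLinearMap.fst ℝ E (Fin k → ℝ)) + m.comp (ContinuousLinearMap.snd ℝ E (Fin k → ℝ))

lemma cf_inl {ι : Type} (f : ι → E) (x0 : E) {k : ℕ} (l : StrongDual ℝ E)
    (m : StrongDual ℝ (Fin k → ℝ)) (i : ι) :
    cf l m (fs f x0 k (Sum.inl i)) = l (f i) - l x0 := by
  show l (f i - x0) + m 0 = _
  rw [map_zero, add_zero, map_sub]

lemma cf_inr {ι : Type} (f : ι → E) (x0 : E) {k : ℕ} (l : StrongDual ℝ E)
    (m : StrongDual ℝ (Fin k → ℝ)) (j : Fin k) :
    cf l m (fs f x0 k (Sum.inr j)) = m (tv j) := by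
  show l 0 + m (tv j) = _
  rw [map_zero, zero_add]

/-- coordinate functional -/
noncomputable def pj {k : ℕ} (j : Fin k) : StrongDual ℝ (Fin k → ℝ) :=
  ContinuousLinearMap.proj j

lemma pj_same {k : ℕ} (j : Fin k) : pj j (tv j) = 1 - (k : ℝ)⁻¹ := by
  show (Pi.single j (1 : ℝ) - fun _ => (k : ℝ)⁻¹ : Fin k → ℝ) j = _
  rw [Pi.sub_apply, Pi.single_eq_same]

lemma pj_ne {k : ℕ} {i j : Fin k} (h : i ≠ j) : pj i (tv j) = - (k : ℝ)⁻¹ := by
  show (Pi.single j (1 : ℝ) - fun _ => (k : ℝ)⁻¹ : Fin k → ℝ) i = _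
  rw [Pi.sub_apply, Pi.single_eq_of_ne h, zero_sub]

lemma avg_lt {ι : Type} [Fintype ι] (f : ι → E) (l : StrongDual ℝ E) (c : ℝ)
    (h1 : ∀ i, l (f i) ≤ c) (h2 : ∃ i, l (f i) < c) :
    l ((Fintype.card ι : ℝ)⁻¹ • ∑ i, f i) < c := by
  obtain ⟨i0, hi0⟩ := h2
  have hcard : 0 < (Fintype.card ι : ℝ) := by
    have : 0 < Fintype.card ι := Fintype.card_pos_iff.mpr ⟨i0⟩
    exact_mod_cast this
  rw [map_smul, map_sum, smul_eq_mul]
  have hsum : ∑ i, l (f i) < ∑ _i : ι, c :=
    Finset.sum_lt_sum (fun i _ => h1 i) ⟨i0, Finset.mem_univ _, hi0⟩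
  rw [Finset.sum_const, Finset.card_univ, nsmul_eq_mul] at hsum
  rw [inv_mul_lt_iff₀ hcard]
  exact hsum

lemma fs_good {ι : Type} [Fintype ι] (hcard : 3 ≤ Fintype.card ι) {f : ι → E} (hf : Exp f) {k : ℕ}
    (hk : 3 ≤ k) : Good f (fs f ((Fintype.card ι : ℝ)⁻¹ • ∑ i, f i) k) := by
  classical
  set x0 := (Fintype.card ι : ℝ)⁻¹ • ∑ i, f i with hx0
  have hk0 : (0 : ℝ) < (k : ℝ)⁻¹ := by
    have : 0 < k := by omega
    positivity
  have hk3 : (k : ℝ)⁻¹ ≤ 3⁻¹ := by
    have : (3 : ℝ) ≤ k := by exact_mod_cast hk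
    exact inv_anti₀ (by norm_num) this
  have hk1 : 0 < 1 - (k : ℝ)⁻¹ := by linarith
  have other2 : ∀ i : ι, ∃ j, j ≠ i := by
    intro i
    by_contra hcon
    push Not at hcon
    have : Fintype.card ι ≤ 1 := Fintype.card_le_one_iff.mpr (fun a b => (hcon a).trans (hcon b).symm)
    omega
  have other3 : ∀ i j : ι, ∃ a, a ≠ i ∧ a ≠ j := by
    intro i j
    by_contra hcon
    push Not at hcon
    have hsub : (Finset.univ : Finset ι) ⊆ {i, j} := by
      intro a _
      rw [Finset.mem_insert, Finset.mem_singleton]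
      by_cases h : a = i
      · exact Or.inl h
      · exact Or.inr (hcon a h)
    have := (Finset.card_le_card hsub).trans Finset.card_le_two
    rw [Finset.card_univ] at this
    omega
  have hexp0 : ∀ i (l : StrongDual ℝ E), (∀ a, a ≠ i → l (f a) < l (f i)) → l x0 < l (f i) := by
    intro i l hl
    apply avg_lt
    · intro a
      by_cases h : a = i
      · rw [h]
      · exact (hl a h).le
    · obtain ⟨j, hj⟩ := other2 i
      exact ⟨j, hl j hj⟩
  refine ⟨?_, ?_, ?_, ?_⟩
  · rintro (i | j)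
    · obtain ⟨l, hl⟩ := hf i
      refine ⟨cf l 0, ?_⟩
      rintro (a | b) hne
      · rw [cf_inl, cf_inl]
        have := hl a (fun he => hne (by rw [he]))
        linarith
      · rw [cf_inl, cf_inr]
        have := hexp0 i l hl
        show (0 : ℝ) < _
        linarith
    · refine ⟨cf 0 (pj j), ?_⟩
      rintro (a | b) hne
      · rw [cf_inl, cf_inr, pj_same]
        show (0 : ℝ) - 0 < _
        linarith
      · rw [cf_inr, cf_inr, pj_same, pj_ne (fun he => hne (by rw [he]))]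
        linarith
  · intro i j
    constructor
    · rintro ⟨hne, l, hl1, hl2⟩
      refine ⟨fun he => hne (by rw [he]), l.comp (ContinuousLinearMap.inl ℝ E (Fin k → ℝ)), ?_, ?_⟩
      · have e : ∀ a, l (fs f x0 k (Sum.inl a)) = l (f a, 0) - l (x0, 0) := by
          intro a
          show l (f a - x0, 0) = _
          rw [← map_sub]
          simp
        rw [e, e] at hl1
        show l (f i, 0) = l (f j, 0)
        linarith
      · intro a ha1 ha2
        have e : ∀ a, l (fs f x0 k (Sum.inl a)) = l (f a, 0) - l (x0, 0) := by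
          intro a
          show l (f a - x0, 0) = _
          rw [← map_sub]
          simp
        have := hl2 (Sum.inl a) (fun he => ha1 (Sum.inl.inj he)) (fun he => ha2 (Sum.inl.inj he))
        rw [e, e] at this
        show l (f a, 0) < l (f i, 0)
        linarith
    · rintro ⟨hne, l, hl1, hl2⟩
      have hx : l x0 < l (f i) := by
        apply avg_lt
        · intro a
          by_cases h : a = i
          · rw [h]
          · by_cases h' : a = j
            · rw [h', hl1]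
            · exact (hl2 a h h').le
        · obtain ⟨a, ha1, ha2⟩ := other3 i j
          exact ⟨a, hl2 a ha1 ha2⟩
      refine ⟨fun he => hne (Sum.inl.inj he), cf l 0, ?_, ?_⟩
      · rw [cf_inl, cf_inl, hl1]
      · rintro (a | b) ha1 ha2
        · rw [cf_inl, cf_inl]
          have := hl2 a (fun he => ha1 (by rw [he])) (fun he => ha2 (by rw [he]))
          linarith
        · rw [cf_inl, cf_inr]
          show (0 : ℝ) < _
          linarith
  · intro i j
    obtain ⟨l, hl⟩ := hf i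
    have hx := hexp0 i l hl
    set M := l (f i) - l x0 with hM
    have hMpos : 0 < M := by linarith
    refine ⟨fun he => (by cases he), cf (M⁻¹ • l) ((1 - (k : ℝ)⁻¹)⁻¹ • pj j), ?_, ?_⟩
    · rw [cf_inl, cf_inr]
      show M⁻¹ * l (f i) - M⁻¹ * l x0 = (1 - (k : ℝ)⁻¹)⁻¹ * pj j (tv j)
      rw [pj_same, inv_mul_cancel₀ hk1.ne', ← mul_sub, ← hM, inv_mul_cancel₀ hMpos.ne']
    · rintro (a | b) ha1 ha2
      · rw [cf_inl, cf_inl]
        show M⁻¹ * l (f a) - M⁻¹ * l x0 < M⁻¹ * l (f i) - M⁻¹ * l x0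
        have := hl a (fun he => ha1 (by rw [he]))
        have h3 := mul_lt_mul_of_pos_left this (inv_pos.mpr hMpos)
        linarith
      · rw [cf_inl, cf_inr]
        show (1 - (k : ℝ)⁻¹)⁻¹ * pj j (tv b) < M⁻¹ * l (f i) - M⁻¹ * l x0
        rw [← mul_sub, ← hM, inv_mul_cancel₀ hMpos.ne', pj_ne (fun he => ha2 (by rw [he]))]
        have h3 : 0 < (1 - (k : ℝ)⁻¹)⁻¹ := inv_pos.mpr hk1
        nlinarith [mul_pos h3 hk0]
  · intro i j hij
    refine ⟨fun he => hij (Sum.inr.inj he), cf 0 (pj i + pj j), ?_, ?_⟩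
    · rw [cf_inr, cf_inr]
      show pj i (tv i) + pj j (tv i) = pj i (tv j) + pj j (tv j)
      rw [pj_same, pj_same, pj_ne hij, pj_ne hij.symm]
      ring
    · rintro (a | b) ha1 ha2
      · rw [cf_inl, cf_inr]
        show (0 : ℝ) - 0 < pj i (tv i) + pj j (tv i)
        rw [pj_same, pj_ne hij.symm]
        linarith
      · rw [cf_inr, cf_inr]
        show pj i (tv b) + pj j (tv b) < pj i (tv i) + pj j (tv i)
        have hbi : i ≠ b := fun he => ha1 (by rw [he])
        have hbj : j ≠ b := fun he => ha2 (by rw [he])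
        rw [pj_same, pj_ne hij.symm, pj_ne hbi, pj_ne hbj]
        linarith

/-- the hyperplane of vectors with coordinate sum zero -/
def Hyp (k : ℕ) : Submodule ℝ (Fin k → ℝ) :=
  LinearMap.ker (∑ j : Fin k, LinearMap.proj (R := ℝ) (φ := fun _ : Fin k => ℝ) j)

lemma mem_Hyp {k : ℕ} (y : Fin k → ℝ) : y ∈ Hyp k ↔ ∑ j, y j = 0 := by
  unfold Hyp
  rw [LinearMap.mem_ker, LinearMap.sum_apply]
  rfl

lemma finrank_Hyp {k : ℕ} (hk : 1 ≤ k) : Module.finrank ℝ (Hyp k) + 1 = k := by
  have h1 : Module.finrank ℝ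
      (LinearMap.range (∑ j : Fin k, LinearMap.proj (R := ℝ) (φ := fun _ : Fin k => ℝ) j)) +
      Module.finrank ℝ (Hyp k) = Module.finrank ℝ (Fin k → ℝ) :=
    LinearMap.finrank_range_add_finrank_ker _
  have h2 : LinearMap.range (∑ j : Fin k, LinearMap.proj (R := ℝ) (φ := fun _ : Fin k => ℝ) j) = ⊤ := by
    rw [LinearMap.range_eq_top]
    intro r
    refine ⟨Pi.single ⟨0, hk⟩ r, ?_⟩
    rw [LinearMap.sum_apply]
    simp
  rw [h2, finrank_top, Module.finrank_self, Module.finrank_fin_fun] at h1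
  omega

lemma tv_mem {k : ℕ} (hk : 1 ≤ k) (j : Fin k) : tv j ∈ Hyp k := by
  rw [mem_Hyp]
  unfold tv
  have hk0 : (k : ℝ) ≠ 0 := by
    have : 0 < k := hk
    positivity
  simp [Finset.sum_sub_distrib, hk0]

lemma span_tv {k : ℕ} (hk : 1 ≤ k) {S : Submodule ℝ (Fin k → ℝ)}
    (h : ∀ i j : Fin k, tv i - tv j ∈ S) : Hyp k ≤ S := by
  intro y hy
  rw [mem_Hyp] at hy
  have : y = ∑ i, y i • (tv i - tv ⟨0, hk⟩) := by
    have h1 : ∀ i : Fin k, (tv i - tv ⟨0, hk⟩ : Fin k → ℝ) = Pi.single i 1 - Pi.single ⟨0, hk⟩ 1 := by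
      intro i
      unfold tv
      abel
    simp only [h1, smul_sub, Finset.sum_sub_distrib, ← Finset.sum_smul, hy, zero_smul, sub_zero]
    funext j
    simp [Finset.sum_apply, Pi.single_apply]
  rw [this]
  exact Submodule.sum_mem _ fun i _ => Submodule.smul_mem _ _ (h i _)

lemma finrank_prod_sub {F : Type} [NormedAddCommGroup F] [NormedSpace ℝ F] [FiniteDimensional ℝ F]
    (A : Submodule ℝ E) (B : Submodule ℝ F) :
    Module.finrank ℝ (A.prod B) = Module.finrank ℝ A + Module.finrank ℝ B := by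
  rw [← Module.finrank_prod]
  refine LinearEquiv.finrank_eq
    { toFun := fun x => (⟨x.1.1, x.2.1⟩, ⟨x.1.2, x.2.2⟩)
      invFun := fun y => ⟨(y.1, y.2), y.1.2, y.2.2⟩
      map_add' := fun x y => rfl
      map_smul' := fun r x => rfl
      left_inv := fun x => rfl
      right_inv := fun y => rfl }

lemma vectorSpan_fs {ι : Type} [Nonempty ι] (f : ι → E) {x0 : E}
    (hx0 : ∀ i, f i - x0 ∈ vectorSpan ℝ (range f)) {k : ℕ} (hk : 1 ≤ k) :
    vectorSpan ℝ (range (fs f x0 k)) = (vectorSpan ℝ (range f)).prod (Hyp k) := by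
  obtain ⟨i0⟩ := ‹Nonempty ι›
  apply le_antisymm
  · rw [vectorSpan_eq_span_vsub_set_right ℝ (show fs f x0 k (Sum.inr ⟨0, hk⟩) ∈ range (fs f x0 k)
      from ⟨_, rfl⟩), Submodule.span_le]
    rintro _ ⟨_, ⟨(i | j), rfl⟩, rfl⟩
    · refine ⟨?_, ?_⟩
      · show f i - x0 - 0 ∈ _
        rw [sub_zero]
        exact hx0 i
      · show (0 : Fin k → ℝ) - tv ⟨0, hk⟩ ∈ _
        exact sub_mem (zero_mem _) (tv_mem hk _)
    · refine ⟨?_, ?_⟩
      · show (0 : E) - 0 ∈ _
        rw [sub_zero]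
        exact zero_mem _
      · show (tv j : Fin k → ℝ) - tv ⟨0, hk⟩ ∈ _
        exact sub_mem (tv_mem hk _) (tv_mem hk _)
  · have h1 : Hyp k ≤ (vectorSpan ℝ (range (fs f x0 k))).comap
        (LinearMap.inr ℝ E (Fin k → ℝ)) := by
      apply span_tv hk
      intro i j
      have : fs f x0 k (Sum.inr i) -ᵥ fs f x0 k (Sum.inr j) ∈ vectorSpan ℝ (range (fs f x0 k)) :=
        vsub_mem_vectorSpan ℝ ⟨_, rfl⟩ ⟨_, rfl⟩
      show ((0 : E), (tv i - tv j : Fin k → ℝ)) ∈ vectorSpan ℝ (range (fs f x0 k))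
      have e : ((0 : E), (tv i - tv j : Fin k → ℝ)) =
          fs f x0 k (Sum.inr i) -ᵥ fs f x0 k (Sum.inr j) := by
        show ((0 : E), (tv i - tv j : Fin k → ℝ)) = ((0 : E) - 0, (tv i - tv j : Fin k → ℝ))
        rw [sub_zero]
      rw [e]
      exact this
    have h2 : vectorSpan ℝ (range f) ≤ (vectorSpan ℝ (range (fs f x0 k))).comap
        (LinearMap.inl ℝ E (Fin k → ℝ)) := by
      rw [vectorSpan_eq_span_vsub_set_right ℝ (show f i0 ∈ range f from ⟨_, rfl⟩),
        Submodule.span_le]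
      rintro _ ⟨_, ⟨i, rfl⟩, rfl⟩
      have : fs f x0 k (Sum.inl i) -ᵥ fs f x0 k (Sum.inl i0) ∈ vectorSpan ℝ (range (fs f x0 k)) :=
        vsub_mem_vectorSpan ℝ ⟨_, rfl⟩ ⟨_, rfl⟩
      show ((f i - f i0 : E), (0 : Fin k → ℝ)) ∈ vectorSpan ℝ (range (fs f x0 k))
      have e : ((f i - f i0 : E), (0 : Fin k → ℝ)) =
          fs f x0 k (Sum.inl i) -ᵥ fs f x0 k (Sum.inl i0) := by
        show ((f i - f i0 : E), (0 : Fin k → ℝ)) = ((f i - x0) - (f i0 - x0), (0 : Fin k → ℝ) - 0)
        rw [sub_zero, sub_sub_sub_cancel_right]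
      rw [e]
      exact this
    rintro ⟨x, y⟩ ⟨hx, hy⟩
    have h3 : (x, (0 : Fin k → ℝ)) ∈ vectorSpan ℝ (range (fs f x0 k)) := h2 hx
    have h4 : ((0 : E), y) ∈ vectorSpan ℝ (range (fs f x0 k)) := h1 hy
    have := add_mem h3 h4
    rw [Prod.mk_add_mk, add_zero, zero_add] at this
    exact this

lemma avg_mem {ι : Type} [Fintype ι] [Nonempty ι] (f : ι → E) (i : ι) :
    f i - (Fintype.card ι : ℝ)⁻¹ • ∑ j, f j ∈ vectorSpan ℝ (range f) := by
  have hcard : (Fintype.card ι : ℝ) ≠ 0 := by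
    have : 0 < Fintype.card ι := Fintype.card_pos
    positivity
  have : f i - (Fintype.card ι : ℝ)⁻¹ • ∑ j, f j = (Fintype.card ι : ℝ)⁻¹ • ∑ j, (f i - f j) := by
    rw [Finset.sum_sub_distrib, smul_sub, Finset.sum_const, Finset.card_univ,
      ← Nat.cast_smul_eq_nsmul ℝ, smul_smul, inv_mul_cancel₀ hcard, one_smul]
  rw [this]
  apply Submodule.smul_mem
  apply Submodule.sum_mem
  intro j _
  exact vsub_mem_vectorSpan ℝ ⟨i, rfl⟩ ⟨j, rfl⟩

lemma card_ge {ι : Type} [Fintype ι] {f : ι → E} {n : ℕ}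
    (h : Module.finrank ℝ (vectorSpan ℝ (range f)) = n) (hn : 1 ≤ n) : n + 1 ≤ Fintype.card ι := by
  rcases isEmpty_or_nonempty ι with hι | hι
  · rw [range_eq_empty, vectorSpan_empty, finrank_bot] at h
    omega
  · have : Fintype.card ι = (Fintype.card ι - 1) + 1 := by
      have : 0 < Fintype.card ι := Fintype.card_pos
      omega
    have := finrank_vectorSpan_range_le ℝ f this
    omega

end freeSum

/-- **For `k ≥ 3` the graph of a `k`-fold pyramid is dimensionally ambiguous.** Let `P` be any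
`n`-polytope, `n ≥ 2`, and `Q` any `k`-fold pyramid with basis `P`, `k ≥ 3`; so `Q` is a polytope of
dimension `n + k`. Then there is a polytope of dimension `n + k - 1` with the same graph. -/
theorem result {E : Type} [NormedAddCommGroup E] [InnerProductSpace ℝ E] [FiniteDimensional ℝ E]
    (n k : ℕ) (hn : 2 ≤ n) (hk : 3 ≤ k) (P Q : Set E) (hP : IsPolytope n P) (hQ : IsPyr P k Q) :
    IsPolytope (n + k) Q ∧ ∃ R : Set (E × (Fin k → ℝ)), IsPolytope (n + k - 1) R ∧
      Nonempty (graph Q ≃g graph R) := by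
  classical
  obtain ⟨hQ1, g, hg, hgood⟩ := hQ.good hP
  obtain ⟨hfin, hexp, hPr⟩ := hP.exists_family
  refine ⟨hQ1, ?_⟩
  letI : Fintype (P.extremePoints ℝ) := Fintype.ofFinite _
  set f : P.extremePoints ℝ → E := fun v => (v : E) with hf
  have hdim : Module.finrank ℝ (vectorSpan ℝ (range f)) = n := by
    rw [← direction_affineSpan, ← affineSpan_convexHull, direction_affineSpan, ← hPr]
    exact hP.2.2
  have hcard : 3 ≤ Fintype.card (P.extremePoints ℝ) := by
    have := card_ge hdim (by omega)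
    omega
  haveI : Nonempty (P.extremePoints ℝ) := Fintype.card_pos_iff.mp (by omega)
  set x0 := (Fintype.card (P.extremePoints ℝ) : ℝ)⁻¹ • ∑ i, f i with hx0
  have hR := fs_good hcard hexp hk
  refine ⟨convexHull ℝ (range (fs f x0 k)), ⟨?_, ⟨range (fs f x0 k), finite_range _, rfl⟩, ?_⟩, ?_⟩
  · exact ⟨_, subset_convexHull ℝ _ ⟨Sum.inr ⟨0, by omega⟩, rfl⟩⟩
  · rw [← direction_affineSpan, affineSpan_convexHull, direction_affineSpan,
      vectorSpan_fs f (avg_mem f) (by omega), finrank_prod_sub, hdim]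
    have := finrank_Hyp (show 1 ≤ k by omega)
    omega
  · obtain ⟨e1⟩ := hgood.1.graphIso hg
    obtain ⟨e2⟩ := hR.1.graphIso (P := convexHull ℝ (range (fs f x0 k))) rfl
    rw [Good.famGraph_eq hgood hR] at e1
    exact ⟨e1.trans e2.symm⟩

end Pool.Agent.Results.MP_1e46c9_co.IteratedPyramids
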